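import Pool.Agent.H32.ShiftOp2

set_option autoImplicit false

open Filter Topology

namespace Pool.Agent.Results.MP_7d5718_an.FHCNotChaotic

/-- `T` is frequently hypercyclic: some orbit visits every non-empty open set along a set of times
of positive lower density. -/
def FreqHypercyclic {E : Type} [TopologicalSpace E] (T : E → E) : Prop :=
  ∃ x, ∀ U : Set E, IsOpen U → U.Nonempty → ∃ δ : ℝ, 0 < δ ∧ ∃ N₀ : ℕ, ∀ N : ℕ, N₀ ≤ N →
    δ * N ≤ ({n : ℕ | 1 ≤ n ∧ n ≤ N ∧ T^[n] x ∈ U}.ncard : ℕ)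

/-- The periodic points of `T` are dense. -/
def DensePeriodic {E : Type} [TopologicalSpace E] (T : E → E) : Prop :=
  Dense {x | ∃ k : ℕ, 1 ≤ k ∧ T^[k] x = x}

/-- The operators `S n` and their inverses are uniformly bounded. -/
def UnifBounded {X : Type} [NormedAddCommGroup X] [NormedSpace ℝ X] (S : ℤ → X ≃L[ℝ] X) : Prop :=
  ∃ C : ℝ, ∀ n, ‖(S n : X →L[ℝ] X)‖ ≤ C ∧ ‖((S n).symm : X →L[ℝ] X)‖ ≤ C

/-- The space of absolutely summable bilateral sequences in `X`. -/
abbrev L1 (X : Type) [NormedAddCommGroup X] : Type := lp (fun _ : ℤ => X) 1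

open Pool.Agent.H32.SO in
/-- A shift operator on the space of absolutely summable bilateral sequences in a Banach space that
is frequently hypercyclic and whose periodic points are not dense. -/
theorem result :
    ∃ (X : Type) (_ : NormedAddCommGroup X) (_ : NormedSpace ℝ X) (_ : CompleteSpace X)
      (S : ℤ → X ≃L[ℝ] X), UnifBounded S ∧
      ∃ σ : L1 X → L1 X, (∀ x n, σ x n = S (n + 1) (x (n + 1))) ∧
        FreqHypercyclic σ ∧ ¬DensePeriodic σ := by
  refine ⟨X, inferInstance, inferInstance, inferInstance, S, ⟨16, fun n => ⟨Tr_le _ _ (by omega),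
    Tr_le _ _ (by omega)⟩⟩, σ, fun _ _ => rfl, ?_, fun h => ?_⟩
  · simpa only [FreqHypercyclic, FunLike.coe_pow_eq_iterate] using fhc
  let y : lp (fun _ : ℤ => X) 1 := lp.single 1 (0 : ℤ) (((1 : ℝ), 0) : X)
  obtain ⟨x, ⟨k, h1, h2⟩, h3⟩ := h.exists_dist_lt y one_pos
  rw [← FunLike.coe_pow_eq_iterate] at h2
  have h4 : ‖(y - x) 0‖ < 1 :=
    (lp.norm_apply_le_norm one_ne_zero (y - x) 0).trans_lt (by rwa [← dist_eq_norm])
  have h5 := (norm_fst_le _).trans_lt h4
  have h6 : ((y - x) 0).1 = 1 := by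
    have : (y - x) 0 = y 0 - x 0 := rfl
    rw [this, Prod.fst_sub, periodic_zero h1 h2]
    simp [y]
  rw [h6] at h5
  simp at h5

end Pool.Agent.Results.MP_7d5718_an.FHCNotChaotic
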